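import Pool.Agent.Y382.DN.Stm2

/-!
# Project DN: sparse configurations, asymptotic form
-/

set_option autoImplicit false

namespace Pool.Agent.Y302.DN

open Finset Pool.Agent.Y622.NG Pool.Agent.Y382.DN

theorem t_BESA : S_BESD → S_BESA := by
  intro hB r k w ε hr hk hε
  obtain ⟨K, hK⟩ := hB r k w hr hk
  have hK1 : (0 : ℝ) < (K : ℝ) + 1 := by positivity
  refine ⟨Real.sqrt (ε / ((K : ℝ) + 1)), Real.sqrt_pos.mpr (by positivity), ?_⟩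
  intro m s E hE hC hT hε'
  have h1 := hK m s E hE hC hT
  have h2 : ((E.card : ℕ) : ℝ) ≤ (K : ℝ) * (s : ℝ) ^ 2 * (2 : ℝ) ^ m := by exact_mod_cast h1
  have hn : (0 : ℝ) < (2 : ℝ) ^ m := by positivity
  have h3 : ε * (2 : ℝ) ^ m ≤ K * (s : ℝ) ^ 2 := by
    have h4 : ε * ((2 : ℝ) ^ m) ^ 2 ≤ K * (s : ℝ) ^ 2 * (2 : ℝ) ^ m := hε'.trans h2
    have h5 : (ε * (2 : ℝ) ^ m) * (2 : ℝ) ^ m ≤ (K * (s : ℝ) ^ 2) * (2 : ℝ) ^ m := by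
      calc _ = ε * ((2 : ℝ) ^ m) ^ 2 := by ring
        _ ≤ _ := h4
    exact le_of_mul_le_mul_right h5 hn
  have h6 : ε / ((K : ℝ) + 1) * (2 : ℝ) ^ m ≤ (s : ℝ) ^ 2 := by
    rw [div_mul_eq_mul_div, div_le_iff₀ hK1]
    nlinarith [sq_nonneg (s : ℝ)]
  rw [← Real.sqrt_eq_rpow, ← Real.sqrt_mul (by positivity)]
  exact Real.sqrt_le_iff.mpr ⟨Nat.cast_nonneg _, h6⟩

end Pool.Agent.Y302.DN
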