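import Pool.Agent.Y382.DN.Stm2

/-!
# Project DN: free coordinates give products of stars; a star at a gate
-/

set_option autoImplicit false

namespace Pool.Agent.Y302.DN

open Finset Pool.Agent.Y622.NG Pool.Agent.Y382.DN

theorem blocks {n r : ℕ} (N : ℕ) (J : Finset (Fin r)) : ∀ A : Finset (Fin n),
    J.card * N ≤ A.card → ∃ T : Fin r → Finset (Fin n), (∀ e ∈ J, T e ⊆ A) ∧
      (∀ e ∈ J, ∀ e' ∈ J, e ≠ e' → Disjoint (T e) (T e')) ∧ ∀ e ∈ J, (T e).card = N := by
  classical
  induction J using Finset.induction_on with
  | empty =>
    intro A _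
    exact ⟨fun _ => ∅, by simp, by simp, by simp⟩
  | insert a J ha ih =>
    intro A hA
    rw [card_insert_of_notMem ha, add_mul, one_mul] at hA
    obtain ⟨t, ht, htc⟩ := exists_subset_card_eq (s := A) (n := N) (by omega)
    have h1 : J.card * N ≤ (A \ t).card := by
      rw [card_sdiff_of_subset ht]
      omega
    obtain ⟨T, h2, h3, h4⟩ := ih (A \ t) h1
    have hne : ∀ e ∈ J, e ≠ a := fun e he h => ha (h ▸ he)
    refine ⟨Function.update T a t, ?_, ?_, ?_⟩
    · intro e he
      rcases mem_insert.1 he with rfl | he
      · rw [Function.update_self]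
        exact ht
      · rw [Function.update_of_ne (hne e he)]
        exact (h2 e he).trans sdiff_subset
    · intro e he e' he' hee
      rcases mem_insert.1 he with h5 | h5
      · rcases mem_insert.1 he' with h6 | h6
        · exact absurd (h5.trans h6.symm) hee
        · rw [h5, Function.update_self, Function.update_of_ne (hne e' h6)]
          exact (disjoint_of_subset_left (h2 e' h6) sdiff_disjoint).symm
      · rcases mem_insert.1 he' with h6 | h6
        · rw [h6, Function.update_self, Function.update_of_ne (hne e h5)]
          exact disjoint_of_subset_left (h2 e h5) sdiff_disjoint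
        · rw [Function.update_of_ne (hne e h5), Function.update_of_ne (hne e' h6)]
          exact h3 e h5 e' h6 hee
    · intro e he
      rcases mem_insert.1 he with rfl | he
      · rw [Function.update_self]
        exact htc
      · rw [Function.update_of_ne (hne e he)]
        exact h4 e he

theorem fstar {n N : ℕ} (T : Finset (Fin n)) (h : T.card = N) (x0 : Fin n → Bool) :
    ∃ f : Fin N → Fin n → Bool, ∀ i i', i ≠ i' → ∃ k ∈ T, f i k ≠ f i' k := by
  classical
  refine ⟨fun i => Function.update x0 (T.orderEmbOfFin h i) (!(x0 (T.orderEmbOfFin h i))), ?_⟩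
  intro i i' hne
  refine ⟨T.orderEmbOfFin h i, T.orderEmbOfFin_mem h i, ?_⟩
  have h1 : T.orderEmbOfFin h i ≠ T.orderEmbOfFin h i' := fun h2 =>
    hne ((T.orderEmbOfFin h).injective h2)
  simp only [Function.update_self]
  rw [Function.update_of_ne h1]
  cases x0 (T.orderEmbOfFin h i) <;> simp

theorem tri_free {n r N : ℕ} {τ : Fin n → Fin r} {J : Finset (Fin r)} {U F : Finset (Fin n)}
    {P : (Fin n → Bool) → Prop} {x0 : Fin n → Bool} (hF : F ⊆ U)
    (hP : ∀ y, (∀ k ∉ F, y k = x0 k) → P y) (T : Fin r → Finset (Fin n))
    (hT : ∀ e ∈ J, T e ⊆ F) (hd : ∀ e ∈ J, ∀ e' ∈ J, e ≠ e' → Disjoint (T e) (T e'))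
    (hc : ∀ e ∈ J, (T e).card = N) (ht : ∀ e ∈ J, ∀ k ∈ T e, τ k ≠ e) : Tri τ J N U P := by
  have hex : ∀ e, ∃ f : Fin N → Fin n → Bool, e ∈ J →
      ∀ i i', i ≠ i' → ∃ k ∈ T e, f i k ≠ f i' k := by
    intro e
    by_cases he : e ∈ J
    · obtain ⟨f, hf⟩ := fstar (T e) (hc e he) x0
      exact ⟨f, fun _ => hf⟩
    · exact ⟨fun _ => x0, fun h => absurd h he⟩
  choose f hf using hex
  exact ⟨T, f, x0, fun e he => (hT e he).trans hF, hd,
    fun e he i i' k hk hτ => absurd hτ (ht e he k hk), fun e he => hf e he,
    fun y hy _ => hP y fun k hk => hy k fun e he hke => hk (hT e he hke)⟩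

theorem t_GFREE : S_GFREE := by
  classical
  intro n r N τ J U F P x0 hFU hJ hP hno
  have hJc : 1 ≤ J.card := hJ.card_pos
  have hsum : F.card = ∑ i, nty τ i F :=
    card_eq_sum_card_fiberwise (fun x _ => mem_coe.2 (mem_univ (τ x)))
  have hout : ∀ i, i ∉ J → nty τ i F < J.card * N := by
    intro i hi
    by_contra h
    push Not at h
    obtain ⟨T, h1, h2, h3⟩ := blocks N J (F.filter fun k => τ k = i) h
    exact hno (tri_free hFU hP T (fun e he => (h1 e he).trans (filter_subset _ _)) h2 h3
      fun e he k hk hke => hi (by
        have := (mem_filter.1 (h1 e he hk)).2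
        rw [← this, hke]
        exact he))
  by_cases hall : ∀ i ∈ J, nty τ i F < J.card * N
  · left
    rw [hsum]
    calc ∑ i, nty τ i F ≤ ∑ _i : Fin r, J.card * N := by
          apply sum_le_sum
          intro i _
          by_cases hi : i ∈ J
          · exact (hall i hi).le
          · exact (hout i hi).le
      _ = r * (J.card * N) := by rw [sum_const, card_univ, Fintype.card_fin, smul_eq_mul]
  · right
    push Not at hall
    obtain ⟨i, hi, hbig⟩ := hall
    refine ⟨i, hi, hbig, ?_⟩
    have hother : ∀ i', i' ≠ i → nty τ i' F < N := by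
      intro i' hne
      by_contra h
      push Not at h
      apply hno
      obtain ⟨T, h1, h2, h3⟩ := blocks N (J.erase i) (F.filter fun k => τ k = i) (by
        refine le_trans ?_ hbig
        exact Nat.mul_le_mul_right _ (card_le_card (erase_subset _ _)))
      obtain ⟨t, ht, htc⟩ := exists_subset_card_eq (s := F.filter fun k => τ k = i') (n := N) h
      refine tri_free hFU hP (Function.update T i t) ?_ ?_ ?_ ?_
      · intro e he
        by_cases hei : e = i
        · rw [hei, Function.update_self]
          exact ht.trans (filter_subset _ _)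
        · rw [Function.update_of_ne hei]
          exact (h1 e (mem_erase.2 ⟨hei, he⟩)).trans (filter_subset _ _)
      · have hdis : ∀ e ∈ J, e ≠ i → Disjoint (T e) t := by
          intro e he hei
          rw [disjoint_left]
          intro k hk hkt
          have a1 := (mem_filter.1 (h1 e (mem_erase.2 ⟨hei, he⟩) hk)).2
          have a2 := (mem_filter.1 (ht hkt)).2
          exact hne (a2.symm.trans a1)
        intro e he e' he' hee
        by_cases hei : e = i
        · have hei' : e' ≠ i := fun h => hee (hei.trans h.symm)
          rw [hei, Function.update_self, Function.update_of_ne hei']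
          exact (hdis e' he' hei').symm
        · rw [Function.update_of_ne hei]
          by_cases hei' : e' = i
          · rw [hei', Function.update_self]
            exact hdis e he hei
          · rw [Function.update_of_ne hei']
            exact h2 e (mem_erase.2 ⟨hei, he⟩) e' (mem_erase.2 ⟨hei', he'⟩) hee
      · intro e he
        by_cases hei : e = i
        · rw [hei, Function.update_self]
          exact htc
        · rw [Function.update_of_ne hei]
          exact h3 e (mem_erase.2 ⟨hei, he⟩)
      · intro e he k hk
        by_cases hei : e = i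
        · rw [hei, Function.update_self] at hk
          rw [hei, (mem_filter.1 (ht hk)).2]
          exact hne
        · rw [Function.update_of_ne hei] at hk
          rw [(mem_filter.1 (h1 e (mem_erase.2 ⟨hei, he⟩) hk)).2]
          exact fun h => hei h.symm
    rw [hsum, ← add_sum_erase univ (fun i => nty τ i F) (mem_univ i), Nat.add_sub_cancel_left]
    calc ∑ x ∈ univ.erase i, nty τ x F ≤ ∑ _x ∈ univ.erase i, N :=
          sum_le_sum fun x hx => (hother x (mem_erase.1 hx).1).le
      _ = (univ.erase i).card * N := by rw [sum_const, smul_eq_mul]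
      _ ≤ r * (J.card * N) := by
          apply Nat.mul_le_mul
          · exact (card_le_card (erase_subset _ _)).trans (by rw [card_univ, Fintype.card_fin])
          · exact Nat.le_mul_of_pos_left N hJc

theorem t_GFREE2 : S_GFREE2 := by
  classical
  intro n r N τ J i U F W P Q x0 hFU hWU hFW hi hbig hstar hP
  obtain ⟨g, g1, g2, g3⟩ := hstar
  obtain ⟨T, h1, h2, h3⟩ := blocks N (J.erase i) (F.filter fun k => τ k = i) (by
    refine le_trans ?_ hbig
    exact Nat.mul_le_mul_right _ (card_le_card (erase_subset _ _)))
  have hex : ∀ e, ∃ f : Fin N → Fin n → Bool, e ∈ J.erase i →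
      ∀ i i', i ≠ i' → ∃ k ∈ T e, f i k ≠ f i' k := by
    intro e
    by_cases he : e ∈ J.erase i
    · obtain ⟨f, hf⟩ := fstar (T e) (h3 e he) x0
      exact ⟨f, fun _ => hf⟩
    · exact ⟨fun _ => x0, fun h => absurd h he⟩
  choose f hf using hex
  have hdis : ∀ e ∈ J, e ≠ i → Disjoint (T e) W := by
    intro e he hei
    exact disjoint_of_subset_left ((h1 e (mem_erase.2 ⟨hei, he⟩)).trans (filter_subset _ _)) hFW
  refine ⟨Function.update T i W, Function.update f i g, x0, ?_, ?_, ?_, ?_, ?_⟩
  · intro e he
    by_cases hei : e = i
    · rw [hei, Function.update_self]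
      exact hWU
    · rw [Function.update_of_ne hei]
      exact ((h1 e (mem_erase.2 ⟨hei, he⟩)).trans (filter_subset _ _)).trans hFU
  · intro e he e' he' hee
    by_cases hei : e = i
    · have hei' : e' ≠ i := fun h => hee (hei.trans h.symm)
      rw [hei, Function.update_self, Function.update_of_ne hei']
      exact (hdis e' he' hei').symm
    · rw [Function.update_of_ne hei]
      by_cases hei' : e' = i
      · rw [hei', Function.update_self]
        exact hdis e he hei
      · rw [Function.update_of_ne hei']
        exact h2 e (mem_erase.2 ⟨hei, he⟩) e' (mem_erase.2 ⟨hei', he'⟩) hee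
  · intro e he a a' k hk hτ
    by_cases hei : e = i
    · subst hei
      rw [Function.update_self] at hk ⊢
      exact g2 a a' k hk hτ
    · rw [Function.update_of_ne hei] at hk
      have h4 := (mem_filter.1 (h1 e (mem_erase.2 ⟨hei, he⟩) hk)).2
      exact absurd (hτ.symm.trans h4) hei
  · intro e he a a' hne
    by_cases hei : e = i
    · subst hei
      rw [Function.update_self, Function.update_self]
      exact g3 a a' hne
    · rw [Function.update_of_ne hei, Function.update_of_ne hei]
      exact hf e (mem_erase.2 ⟨hei, he⟩) a a' hne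
  · intro y hy1 hy2
    obtain ⟨a, ha⟩ := hy2 i hi
    rw [Function.update_self, Function.update_self] at ha
    refine hP (g a) (g1 a) y ha fun k hkF hkW => hy1 k fun e he => ?_
    by_cases hei : e = i
    · rw [hei, Function.update_self]
      exact hkW
    · rw [Function.update_of_ne hei]
      exact fun hk => hkF (filter_subset _ _ (h1 e (mem_erase.2 ⟨hei, he⟩) hk))

theorem t_GJOIN : S_GJOIN := by
  classical
  intro n s w r N τ J j U C out v hj hvU hstar htri
  obtain ⟨g, g1, g2, g3⟩ := hstar
  obtain ⟨T, f, z, h1, h2, h3, h4, h5⟩ := htri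
  have hsub : ∀ e ∈ J, e ≠ j → T e ⊆ U \ C.scope v := fun e he hej =>
    h1 e (mem_erase.2 ⟨hej, he⟩)
  have hdis : ∀ e ∈ J, e ≠ j → Disjoint (T e) (C.scope v) := by
    intro e he hej
    exact disjoint_of_subset_left (hsub e he hej) sdiff_disjoint
  refine ⟨Function.update T j (C.scope v), Function.update f j g, z, ?_, ?_, ?_, ?_, ?_⟩
  · intro e he
    by_cases hei : e = j
    · rw [hei, Function.update_self]
      exact hvU
    · rw [Function.update_of_ne hei]
      exact (hsub e he hei).trans sdiff_subset
  · intro e he e' he' hee
    by_cases hei : e = j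
    · have hei' : e' ≠ j := fun h => hee (hei.trans h.symm)
      rw [hei, Function.update_self, Function.update_of_ne hei']
      exact (hdis e' he' hei').symm
    · rw [Function.update_of_ne hei]
      by_cases hei' : e' = j
      · rw [hei', Function.update_self]
        exact hdis e he hei
      · rw [Function.update_of_ne hei']
        exact h2 e (mem_erase.2 ⟨hei, he⟩) e' (mem_erase.2 ⟨hei', he'⟩) hee
  · intro e he a a' k hk hτ
    by_cases hei : e = j
    · subst hei
      rw [Function.update_self] at hk ⊢
      exact g2 a a' k hk hτ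
    · rw [Function.update_of_ne hei] at hk ⊢
      exact h3 e (mem_erase.2 ⟨hei, he⟩) a a' k hk hτ
  · intro e he a a' hne
    by_cases hei : e = j
    · subst hei
      rw [Function.update_self, Function.update_self]
      exact g3 a a' hne
    · rw [Function.update_of_ne hei, Function.update_of_ne hei]
      exact h4 e (mem_erase.2 ⟨hei, he⟩) a a' hne
  · intro y hy1 hy2
    obtain ⟨a, ha⟩ := hy2 j hj
    rw [Function.update_self, Function.update_self] at ha
    have hR : Reach C out (mxs (C.scope v) z y) v := by
      apply h5
      · intro k hk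
        by_cases hkv : k ∈ C.scope v
        · exact mxs_mem hkv
        · rw [mxs_not_mem hkv]
          apply hy1
          intro e he
          by_cases hei : e = j
          · rw [hei, Function.update_self]
            exact hkv
          · rw [Function.update_of_ne hei]
            exact hk e (mem_erase.2 ⟨hei, he⟩)
      · intro e he
        obtain ⟨hei, heJ⟩ := mem_erase.1 he
        obtain ⟨b, hb⟩ := hy2 e heJ
        rw [Function.update_of_ne hei, Function.update_of_ne hei] at hb
        refine ⟨b, fun k hk => ?_⟩
        rw [mxs_not_mem (disjoint_left.1 (hdis e heJ hei) hk)]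
        exact hb k hk
    have hR' := (t_REACH n s w C out v _ hR).2.1 y fun k hk => mxs_not_mem hk
    have hv : C.val v y = true := by
      rw [C.dep v y (g a) ha]
      exact g1 a
    exact (t_REACH n s w C out v y hR').2.2 hv

end Pool.Agent.Y302.DN
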