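import Pool.Agent.Y382.DN.Stm2

/-!
# Project DN: counting with blocks for several types
-/

set_option autoImplicit false

namespace Pool.Agent.Y302.DN

open Finset Pool.Agent.Y622.NG Pool.Agent.Y382.DN

theorem t_GPRD : S_GPRD := by
  classical
  intro n U T1 T2 P h
  let g : (Fin n → Bool) × (Fin n → Bool) → Fin n → Bool := fun q k =>
    if k ∈ U then (if k ∈ T1 then q.1 k else q.2 k) else false
  have h1 : P.image (res U) = (P.image fun x => (res T1 x, res T2 x)).image g := by
    rw [image_image]
    apply image_congr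
    intro x _
    funext k
    simp only [Function.comp, g]
    by_cases hU : k ∈ U
    · rw [if_pos hU]
      have e0 : res U x k = x k := mxs_mem hU
      rw [e0]
      by_cases hk : k ∈ T1
      · rw [if_pos hk]
        exact (mxs_mem hk).symm
      · rw [if_neg hk]
        exact (mxs_mem ((h k hU).resolve_left hk)).symm
    · rw [if_neg hU]
      exact mxs_not_mem hU
  have h2 : (P.image fun x => (res T1 x, res T2 x)) ⊆ (P.image (res T1)) ×ˢ (P.image (res T2)) := by
    intro q hq
    rw [mem_image] at hq
    obtain ⟨x, hx, rfl⟩ := hq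
    exact mem_product.2 ⟨mem_image_of_mem _ hx, mem_image_of_mem _ hx⟩
  rw [h1]
  refine card_image_le.trans ((card_le_card h2).trans ?_)
  rw [card_product]

theorem bdU_mul {n r : ℕ} {τ : Fin n → Fin r} {j : Fin r} {U T T1 T2 : Finset (Fin n)}
    {P : Finset (Fin n → Bool)} {c1 c2 : ℕ} (h : ∀ k ∈ T, k ∈ T1 ∨ k ∈ T2)
    (h1 : BdU τ j U T1 P c1) (h2 : BdU τ j U T2 P c2) : BdU τ j U T P (c1 * c2) := by
  intro z
  exact (t_GPRD n T T1 T2 _ h).trans (Nat.mul_le_mul (h1 z) (h2 z))

theorem t_GCNT : S_GCNT := by
  classical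
  refine ⟨?_, ?_, ?_, ?_⟩
  · intro n r τ j U T1 T2 T3 P c1 c2 c3 hT h1 h2 h3
    have hU : BdU τ j U U P (c1 * c2 * c3) := by
      refine bdU_mul (T1 := T1 ∪ T2) (T2 := T3) ?_ (bdU_mul (T1 := T1) (T2 := T2) ?_ h1 h2) h3
      · intro k hk
        rcases hT k hk with h | h | h
        · exact Or.inl (mem_union_left _ h)
        · exact Or.inl (mem_union_right _ h)
        · exact Or.inr h
      · intro k hk
        exact mem_union.1 hk
    set A := U.filter fun k => τ k = j with hA
    set S := P.image (res U) with hS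
    have hfib : ∀ y ∈ S.image (res A), (S.filter fun x => res A x = y).card ≤ c1 * c2 * c3 := by
      intro y hy
      rw [mem_image] at hy
      obtain ⟨z, -, rfl⟩ := hy
      refine (card_le_card ?_).trans (hU z)
      intro s hs
      rw [mem_filter, hS, mem_image] at hs
      obtain ⟨⟨x, hx, rfl⟩, hxz⟩ := hs
      refine mem_image_of_mem _ (mem_filter.2 ⟨hx, fun k hk hj => ?_⟩)
      rw [res_eq] at hxz
      have h4 := hxz k (mem_filter.2 ⟨hk, hj⟩)
      have e1 : res U x k = x k := mxs_mem hk
      rwa [e1] at h4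
    calc S.card ≤ (c1 * c2 * c3) * (S.image (res A)).card := card_le_mul_card_image _ _ hfib
      _ ≤ c1 * c2 * c3 * 2 ^ nty τ j U := Nat.mul_le_mul_left _ (card_res A S)
  · intro n r τ j U T N Q P hTU hno hP z
    by_contra hcon
    apply hno
    set S := (P.filter fun x => ∀ k ∈ U, τ k = j → x k = z k).image (res T) with hS
    have hc : Fintype.card (Fin N) ≤ Fintype.card {y // y ∈ S} := by
      rw [Fintype.card_fin, Fintype.card_coe]
      omega
    obtain ⟨e⟩ := Function.Embedding.nonempty_of_card_le hc
    have hex : ∀ i : Fin N, ∃ x ∈ P, (∀ k ∈ U, τ k = j → x k = z k) ∧ res T x = (e i).1 := by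
      intro i
      obtain ⟨x, hx, hxe⟩ := mem_image.1 (e i).2
      rw [mem_filter] at hx
      exact ⟨x, hx.1, hx.2, hxe⟩
    choose f hf1 hf2 hf3 using hex
    refine ⟨f, fun i => hP _ (hf1 i), fun i i' k hk hj => by
      rw [hf2 i k (hTU hk) hj, hf2 i' k (hTU hk) hj], ?_⟩
    intro i i' hne
    by_contra hno'
    have hno2 : ∀ k ∈ T, f i k = f i' k := by
      intro k hk
      by_contra h
      exact hno' ⟨k, hk, h⟩
    have h5 : res T (f i) = res T (f i') := res_eq.2 hno2
    rw [hf3, hf3] at h5
    exact hne (e.injective (Subtype.ext h5))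
  · intro n r τ j U T P c hTU hc z
    refine le_trans ?_ hc
    set H := T.filter fun k => ¬ τ k = j with hH
    have hHc : H.card = T.card - nty τ j T := by
      have h6 := card_filter_add_card_filter_not (s := T) (fun k => τ k = j)
      unfold nty
      rw [hH]
      omega
    rw [← hHc]
    refine le_trans ?_ (card_res H (P.filter fun x => ∀ k ∈ U, τ k = j → x k = z k))
    set S := P.filter fun x => ∀ k ∈ U, τ k = j → x k = z k with hS
    have hmap : S.image (res H) = (S.image (res T)).image (res H) := by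
      rw [image_image]
      apply image_congr
      intro x _
      simp only [Function.comp]
      rw [res_eq]
      intro k hk
      exact (mxs_mem (mem_of_mem_filter k hk)).symm
    rw [hmap]
    refine le_of_eq (card_image_of_injOn ?_).symm
    intro x hx y hy hxy
    rw [mem_coe, mem_image] at hx hy
    obtain ⟨x', hx', rfl⟩ := hx
    obtain ⟨y', hy', rfl⟩ := hy
    rw [hS, mem_filter] at hx' hy'
    rw [res_eq]
    rw [res_eq] at hxy
    intro k hk
    by_cases hj : τ k = j
    · rw [hx'.2 k (hTU hk) hj, hy'.2 k (hTU hk) hj]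
    · have h7 := hxy k (mem_filter.2 ⟨hk, hj⟩)
      have e1 : res T x' k = x' k := mxs_mem hk
      have e2 : res T y' k = y' k := mxs_mem hk
      rwa [e1, e2] at h7
  · intro n r τ j U T T1 T2 P c1 c2 h h1 h2
    exact bdU_mul h h1 h2

end Pool.Agent.Y302.DN
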